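import Pool.Agent.X176.FJ.NT

/-!
# Graphs of groups whose edge groups lie in normal subgroups of the vertex groups

`C` is any class of groups with the closure properties `ClosedE C` which contains the abelian-by-cyclic
groups. The class of the groups that satisfy the K- and L-theoretic Farrell–Jones conjecture with
coefficients and finite wreath products is such a class (it contains all virtually solvable groups).

Let `Γ` act on a tree (inversions are allowed). For each vertex `u` let `A_u` be the kernel of a
homomorphism `f_u` from the stabilizer `Γ_u` to a group in `C`. Suppose that `A_u` contains the stabilizers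
of all edges at `u`, and that these meet the commutator subgroup `[A_u, A_u]` trivially. Then `Γ` is in `C`
if and only if all vertex stabilizers are in `C`.

Examples: the edge groups are contained in abelian normal subgroups `A_u` of the vertex groups `Γ_u` with
`Γ_u/A_u` in `C` (for instance, central edge groups; vertex groups `ℤⁿ ⋊ SL_n(ℤ)` with edge groups in
`ℤⁿ`). The case `A_u = Γ_u` are the graphs of groups whose edge groups inject into the abelianizations of
the vertex groups.
-/

set_option autoImplicit false

namespace Pool.Agent.Results.MP_9d1ffa_al.EdgeGroupsInNormalSubgroups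

open Pool.Agent.Y110.FJ Pool.Agent.X176.FJ

/-- Let `C` be a class of groups with the closure properties `ClosedE C` which contains the
abelian-by-cyclic groups, and let `Γ` act on the tree `T`. Let `f u` be homomorphisms from the stabilizers
of the vertices `u` to groups in `C` which kill the elements that fix `u` and an adjacent vertex `v`. If
none of these elements except `1` is in the commutator subgroup of the kernel of `f u`, then `Γ` is in `C`
if and only if all vertex stabilizers are in `C`. -/
theorem result (C : ∀ (G : Type) [Group G], Prop) (hC : ClosedE C)
    (hab : ∀ (H : Type) [Group H] (A : Subgroup H) [A.Normal], (∀ a ∈ A, ∀ b ∈ A, a * b = b * a) →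
      IsCyclic (H ⧸ A) → C H)
    (Γ V : Type) [Group Γ] [MulAction Γ V] (T : SimpleGraph V) (hT : T.IsTree)
    (hadj : ∀ (g : Γ) (u v : V), T.Adj u v → T.Adj (g • u) (g • v))
    (Q : V → Type) [∀ v, Group (Q v)] (f : (v : V) → MulAction.stabilizer Γ v →* Q v)
    (hQ : ∀ v, C (Q v))
    (hE : ∀ u v : V, T.Adj u v → ∀ g : MulAction.stabilizer Γ u, (g : Γ) • v = v → f u g = 1)
    (hE' : ∀ u v : V, T.Adj u v → ∀ g : MulAction.stabilizer Γ u, (g : Γ) • v = v →
      g ∈ ⁅(f u).ker, (f u).ker⁆ → g = 1) :
    C Γ ↔ ∀ v : V, C (MulAction.stabilizer Γ v) :=
  norm_tree hC hab hT hadj Q f hQ hE hE'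

end Pool.Agent.Results.MP_9d1ffa_al.EdgeGroupsInNormalSubgroups
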