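import Pool.Agent.X201.FG.Virt

/-!
# Extensions by graph products of finite groups

`C` is any class of groups with the closure properties `ClosedE C` such that every extension of a group
in `C` by a free kernel (of any rank) is in `C`. The class of the groups that satisfy the K- and
L-theoretic Farrell–Jones conjecture with coefficients and finite wreath products is such a class.

`IsGP Λ B` says that the group `A` is the graph product of its subgroups `B v`, `v ∈ V`, over the graph
`Λ` on the set `V`: `B u` and `B v` commute elementwise for adjacent `u` and `v`, the `B v` generate `A`, and
every family of homomorphisms of the `B v` to a group for which the images of `B u` and `B v` commute for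
adjacent `u` and `v` extends to `A`. If all `B v` have order two, `A` is a right-angled Coxeter group.
-/

set_option autoImplicit false

namespace Pool.Agent.Results.MP_9d1ffa_al.FiniteFactorKernels

open Pool.Agent.Y110.FJ Pool.Agent.X201.FJ

/-- Let `C` be a class of groups with the closure properties `ClosedE C` which is closed under extensions
with free kernel. Let `N` be a normal subgroup of `G` which has a subgroup `A` of finite index that is the
graph product of finite subgroups `B v` over a finite graph `Λ`. If `G ⧸ N` is in `C`, then `G` is in `C`.
Nothing is assumed on the action of `G` on `N`. -/
theorem result (C : ∀ (G : Type) [Group G], Prop) (hC : ClosedE C)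
    (hFK : ∀ (H : Type) [Group H] (K : Subgroup H) [K.Normal], IsFreeGroup K → C (H ⧸ K) → C H)
    (G V : Type) [Group G] [Finite V] (N A : Subgroup G) [N.Normal] (hAN : A ≤ N)
    (hfi : A.relIndex N ≠ 0) (Λ : SimpleGraph V) (B : V → Subgroup A) (h : IsGP Λ B)
    (hfin : ∀ v, Finite (B v)) (hQ : C (G ⧸ N)) : C G :=
  gp_finite_virt hC hFK A N hAN hfi Λ B h hfin hQ

end Pool.Agent.Results.MP_9d1ffa_al.FiniteFactorKernels
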