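import Pool.Agent.X265.Gpd.Main

/-!
# Spinal groups with many spines on trees of infinite valency

`C` is any class of groups with the closure properties `ClosedE C`, all of which are known for the
class of the groups that satisfy the K- and L-theoretic Farrell–Jones conjecture with coefficients
and finite wreath products.

`X` is an alphabet, finite or infinite, and `P` a group of permutations of `X` which is in `C`.
`LocIn P g`: all vertex permutations of the automorphism `g` of the tree `X^*` are in `P`, and at
every vertex there are only finitely many different sections of `g` one level below.
`DepthAt g v k`: the section of `g` at `v` is finitary of depth at most `k`. `IsSec g v h`: the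
section of `g` at `v` is `h`.

`DirFamily P D`: for every infinite word `ρ`, `D ρ` is a group of automorphisms of `X^*` directed
along `ρ`: they fix `ρ`, their section at the first letter of `ρ` is in `D (shift of ρ)`, and their
sections at all other letters are finitary. (`D ρ` may be trivial for most `ρ`. Trees in which the
words of level `n` have children labelled by `V n`, with vertex groups `P n` in `C`, are included:
take for `X` the disjoint union of the sets `V n`, for `P` the direct sum of the `P n`, and extend all
automorphisms trivially.)

Outline of the proof. Let `F` be the group of the finitary automorphisms satisfying `LocIn P`; it is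
in `C`. Let `Γ` be the free product of `F` and of the groups `D ρ` for all `ρ` (in the general form
with a groupoid instead of the groups `D ρ`). The sections define a recursion on `Γ`. By induction on
the number of factors from the `D ρ`, every element of `Γ` has all its sections of some level in `F`
or in some `D ρ`: if all factors stay on their rays, then the finitary factors between them become
trivial, and factors of different rays get separated. So the kernel of the action of `Γ` on the tree
is the union of the kernels of the iterated recursion.
-/

set_option autoImplicit false

namespace Pool.Agent.Results.MP_9d1ffa_al.MultispinalGroups

open Pool.Agent.Y110.FJ Pool.Agent.X265.Ctr Pool.Agent.X265.Gpd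
open Pool.Agent.Y462.SS (IsTree DepthAt)

/-- Let `C` be a class of groups with the closure properties `ClosedE C`, `X` a finite or infinite set,
`P` in `C` a group of permutations of `X` and `D` a family of groups `D ρ` in `C` of automorphisms of
the tree `X^*` directed along the infinite words `ρ`. Let `G` be a group of automorphisms of `X^*`
which is generated by a set `A` of elements with vertex permutations in `P` and finitely many different
sections below every vertex such that all sections of some level are finitary or in some `D ρ`. Then
`G` is in `C`. -/
theorem result (C : ∀ (G : Type) [Group G], Prop) (hC : ClosedE C) (X : Type)
    (P : Subgroup (Equiv.Perm X)) (hP : C P)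
    (D : (ℕ → X) → Subgroup (Equiv.Perm (List X))) (hD : DirFamily P D) (hDC : ∀ ρ, C (D ρ))
    (G : Type) [Group G] (f : G →* Equiv.Perm (List X)) (hf : Function.Injective f) (A : Set G)
    (hA : Subgroup.closure A = ⊤) (hT : ∀ s ∈ A, IsTree (f s)) (hL : ∀ s ∈ A, LocIn P (f s))
    (hN : ∀ s ∈ A, ∃ n, ∀ v : List X, v.length = n →
      (∃ ρ, ∃ h ∈ D ρ, IsSec (f s) v h) ∨ ∃ k, DepthAt (f s) v k) : C G :=
  spinal hC hP D hD hDC G f hf A hA hT hL hN

end Pool.Agent.Results.MP_9d1ffa_al.MultispinalGroups
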