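import Pool.Agent.X265.Ngo.Tame

/-!
# Automorphism groups of polynomial rings in two variables

`C` is any class of groups with the closure properties `ClosedE C` which contains all groups with an
abelian normal subgroup and cyclic quotient. All of this is known for the class of the groups that
satisfy the K- and L-theoretic Farrell–Jones conjecture with coefficients and finite wreath products.

`TA k` is the group of automorphisms of `k[x, y]` generated by the linear automorphisms, which form
`GL_2(k)`, and the automorphisms `(x + p(y), y)` with `p(0) = 0`. If `k` is a field, then by the theorem of
Jung and van der Kulk (not part of the Lean) this is the group of all automorphisms of `k[x, y]` which fix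
the origin.

Outline of the proof. The degrees of the coordinates of points over `k[t]` show that the group is the
amalgamated product of the linear and the triangular automorphisms over their intersection, and the
linear part at the origin is a retraction of the triangular automorphisms onto the intersection. So the
theorem on amalgamated products over retracts (`X176.FJ.Retr`) applies.
-/

set_option autoImplicit false

namespace Pool.Agent.Results.MP_9d1ffa_al.TameAutomorphismGroups

open Pool.Agent.Y110.FJ Pool.Agent.X265.Ngo

/-- Let `C` be a class of groups with the closure properties `ClosedE C` which contains all
abelian-by-cyclic groups, and let `k` be a commutative domain. The group `TA k` of automorphisms of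
`k[x, y]` which is generated by the linear automorphisms and the automorphisms `(x + p(y), y)` with
`p(0) = 0` is in `C` if and only if `GL_2(k)` is in `C`. -/
theorem result (C : ∀ (G : Type) [Group G], Prop) (hC : ClosedE C)
    (hab : ∀ (H : Type) [Group H] (A : Subgroup H) [A.Normal], (∀ a ∈ A, ∀ b ∈ A, a * b = b * a) →
      IsCyclic (H ⧸ A) → C H)
    (k : Type) [CommRing k] [IsDomain k] : C ↥(TA k) ↔ C (Matrix (Fin 2) (Fin 2) k)ˣ :=
  c_TA k hC hab

end Pool.Agent.Results.MP_9d1ffa_al.TameAutomorphismGroups
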